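import Pool.Agent.L7h2.QS.JR
import Pool.Agent.Y781.JR.Dens

/-! The sieve density of an admissible quadratic polynomial. -/

set_option autoImplicit false

namespace Pool.Agent.L7h2.QS

open Finset Filter Topology
open Pool.Agent.Y882.PX
open Pool.Agent.Y882.SI (QF ro_quad)
open Pool.Agent.Y781.JR (GG RR GG_pos GG_le GG_mertens RR_conv real_version fac_pos)
open Pool.Agent.R498.MT (QG QG_eval rt_QG rt_ro)

variable {A B C : ℤ}

/-- the factors of the constant -/
noncomputable def fa (A B C : ℤ) (p : ℕ) : ℝ := (1 - (ro (QG A B C) 0 p : ℝ) / p) / (1 - 1 / (p : ℝ))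

/-- the partial products of the constant -/
noncomputable def RG (A B C : ℤ) (N : ℕ) : ℝ := ∏ p ∈ (range N).filter Nat.Prime, fa A B C p

theorem rho_eqG (A B C : ℤ) (p : ℕ) :
    ((Finset.range p).filter (fun m : ℕ => (p : ℤ) ∣ A * (m : ℤ) ^ 2 + B * m + C)).card =
      ro (QG A B C) 0 p := by
  rw [ro_eq]
  congr 1
  apply filter_congr
  intro m _
  rw [QG_eval, add_zero]

theorem fa_pos (h : Adm A B C) (p : ℕ) (hp : p.Prime) : 0 < fa A B C p := by
  unfold fa
  apply div_pos _ (fac_pos p hp).1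
  have hp0 : (0 : ℝ) < p := by exact_mod_cast hp.pos
  rw [sub_pos, div_lt_one hp0]
  rcases hp.two_le.eq_or_lt with h2 | h2
  · subst h2
    have : (ro (QG A B C) 0 2 : ℝ) ≤ 1 := by exact_mod_cast ro_QG_two h
    push_cast
    linarith
  · have h3 : (ro (QG A B C) 0 p : ℝ) ≤ 2 := by exact_mod_cast ro_QG_le h p hp
    have h4 : (3 : ℝ) ≤ p := by exact_mod_cast h2
    linarith

theorem densG_eq (A B C : ℤ) (z : ℝ) : densG A B C z = GG ⌈z⌉₊ * RG A B C ⌈z⌉₊ := by
  unfold densG GG RG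
  rw [← prod_mul_distrib]
  refine prod_congr rfl (fun p hp => ?_)
  have hpp := (mem_filter.1 hp).2
  rw [rho_eqG]
  unfold fa
  rw [mul_div_cancel₀ _ (fac_pos p hpp).1.ne']

/-- the comparison factor -/
noncomputable def gf (D : ℤ) (p : ℕ) : ℝ := if p = 2 then 1 else 1 - (jacobiSym D p : ℝ) / ((p : ℝ) - 1)

theorem gf_pos (D : ℤ) (p : ℕ) (hp : p.Prime) : 0 < gf D p := by
  unfold gf
  split_ifs with h
  · norm_num
  · have h3 : 3 ≤ p := by
      have := hp.two_le
      omega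
    have h3r : (3 : ℝ) ≤ p := by exact_mod_cast h3
    have h1 : (jacobiSym D p : ℝ) ≤ 1 := by
      rcases jacobiSym.trichotomy D p with h | h | h <;> rw [h] <;> norm_num
    rw [sub_pos, div_lt_one (by linarith)]
    linarith

theorem fa_eq (A B C : ℤ) (p : ℕ) (hp : p.Prime) (hpA : ¬ (p : ℤ) ∣ 2 * A) :
    fa A B C p = gf (B ^ 2 - 4 * A * C) p := by
  have hp2 : p ≠ 2 := by
    rintro rfl
    exact hpA ⟨A, by push_cast; ring⟩
  have h3 : 3 ≤ p := by
    have := hp.two_le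
    omega
  have h3r : (3 : ℝ) ≤ p := by exact_mod_cast h3
  have h1 := rt_QG A B C p hp hpA
  rw [rt_ro, rt_ro] at h1
  have h2 := ro_quad (-(B ^ 2 - 4 * A * C)) p hp hp2
  rw [neg_neg] at h2
  have h4 : (ro (QG A B C) 0 p : ℝ) = 1 + (jacobiSym (B ^ 2 - 4 * A * C) p : ℝ) := by
    rw [h1]
    exact_mod_cast h2
  unfold fa gf
  rw [if_neg hp2, h4]
  have h5 : (p : ℝ) - 1 ≠ 0 := by linarith
  have h6 : (p : ℝ) ≠ 0 := by linarith
  field_simp
  ring

theorem RR_gf (D : ℤ) (N : ℕ) : RR (-D) N = ∏ p ∈ (range N).filter Nat.Prime, gf D p := by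
  unfold RR gf
  rw [neg_neg, ← filter_filter, prod_filter (s := (range N).filter Nat.Prime)]
  refine prod_congr rfl (fun p _ => ?_)
  by_cases h : p = 2
  · rw [if_pos h, if_neg (not_not.2 h)]
  · rw [if_neg h, if_pos h]

theorem RG_conv (h : Adm A B C) : ∃ L : ℝ, 0 < L ∧ Tendsto (RG A B C) atTop (𝓝 L) := by
  classical
  obtain ⟨D, hD⟩ : ∃ D, D = B ^ 2 - 4 * A * C := ⟨_, rfl⟩
  obtain ⟨L0, hL0, hR⟩ := RR_conv (-D) (by rw [neg_neg, hD]; exact h.disc)
  obtain ⟨T, hT⟩ : ∃ T, T = (2 * A).natAbs.primeFactors := ⟨_, rfl⟩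
  have hTp : ∀ p ∈ T, p.Prime := fun p hp => by
    rw [hT] at hp
    exact Nat.prime_of_mem_primeFactors hp
  refine ⟨(∏ p ∈ T, fa A B C p / gf D p) * L0, ?_, ?_⟩
  · apply mul_pos _ hL0
    exact prod_pos (fun p hp => div_pos (fa_pos h p (hTp p hp)) (gf_pos D p (hTp p hp)))
  · refine (hR.const_mul _).congr' ?_
    filter_upwards [eventually_gt_atTop (T.sup id)] with N hN
    have hsub : T ⊆ (range N).filter Nat.Prime := by
      intro p hp
      rw [mem_filter, mem_range]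
      exact ⟨lt_of_le_of_lt (Finset.le_sup (f := id) hp) hN, hTp p hp⟩
    have h1 : ∏ p ∈ T, fa A B C p / gf D p = ∏ p ∈ (range N).filter Nat.Prime, fa A B C p / gf D p := by
      apply prod_subset hsub
      intro p hp hpT
      have hpp := (mem_filter.1 hp).2
      rw [fa_eq A B C p hpp, ← hD, div_self (gf_pos D p hpp).ne']
      intro hd
      apply hpT
      rw [hT]
      exact Nat.mem_primeFactors.2 ⟨hpp, Int.natCast_dvd.1 hd,
        Int.natAbs_ne_zero.2 (mul_ne_zero (by norm_num) h.ne)⟩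
    rw [h1, RR_gf, ← prod_mul_distrib]
    unfold RG
    refine prod_congr rfl (fun p hp => ?_)
    rw [div_mul_cancel₀ _ (gf_pos D p (mem_filter.1 hp).2).ne']

theorem densG_lim (h : Adm A B C) (L : ℝ) (hL : Tendsto (RG A B C) atTop (𝓝 L)) :
    Tendsto (fun z : ℝ => densG A B C z * Real.log z) atTop
      (𝓝 (L * Real.exp (-Real.eulerMascheroniConstant))) := by
  have h1 := real_version (fun N => GG (N + 1)) (fun N => (GG_pos _).le) (fun N => GG_le _) _ GG_mertens
  have h2 := (hL.comp (tendsto_nat_ceil_atTop (α := ℝ))).mul h1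
  refine h2.congr' ?_
  filter_upwards [eventually_gt_atTop (0 : ℝ)] with z hz
  have hc : 0 < ⌈z⌉₊ := Nat.ceil_pos.2 hz
  simp only [Function.comp]
  rw [densG_eq, Nat.sub_add_cancel hc]
  ring

end Pool.Agent.L7h2.QS
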