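import Pool.Agent.L7h2.QS.Dens

/-! The constant of Hardy and Littlewood as a limit of the sieve products. -/

set_option autoImplicit false

namespace Pool.Agent.L7h2.QS

open Finset Filter Topology
open Pool.Agent.Y882.PX
open Pool.Agent.R498.MT (QG QG_eval rt_QG rt_ro)

variable {A B C : ℤ}

/-- `2` if `a + b` is even and `1` if `a + b` is odd -/
noncomputable def eps (a b : ℤ) : ℝ := if (2 : ℤ) ∣ a + b then 2 else 1

/-- the product `∏_{p > 2, p ∣ gcd(a, b)} p / (p - 1)` -/
noncomputable def gcdProd (a b : ℤ) : ℝ :=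
  ∏ p ∈ (Int.gcd a b).primeFactors.filter (fun p => 2 < p), (p : ℝ) / (p - 1)

/-- the partial product `∏_{2 < p ≤ z, p ∤ a} (1 - (D / p) / (p - 1))`, where `D = b² - 4 a c` -/
noncomputable def partialC (a b c : ℤ) (z : ℕ) : ℝ :=
  ∏ p ∈ (Icc 3 z).filter (fun p : ℕ => p.Prime ∧ ¬ (p : ℤ) ∣ a),
    (1 - (jacobiSym (b ^ 2 - 4 * a * c) p : ℝ) / (p - 1))

theorem ro_lin (A B C : ℤ) (p : ℕ) (hp : p.Prime) (hA : (p : ℤ) ∣ A) (hB : ¬ (p : ℤ) ∣ B) :
    ro (QG A B C) 0 p = 1 := by
  classical
  have : Fact p.Prime := ⟨hp⟩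
  rw [ro_eq]
  have hA' : (A : ZMod p) = 0 := (ZMod.intCast_zmod_eq_zero_iff_dvd A p).2 hA
  have hB' : (B : ZMod p) ≠ 0 := fun h => hB ((ZMod.intCast_zmod_eq_zero_iff_dvd B p).1 h)
  have h1 : (range p).filter (fun n : ℕ => (p : ℤ) ∣ (QG A B C).eval (n : ℤ) + 0) =
      {(-(C : ZMod p) / B).val} := by
    ext n
    rw [mem_filter, mem_range, mem_singleton, QG_eval, add_zero,
      ← ZMod.intCast_zmod_eq_zero_iff_dvd]
    push_cast
    rw [hA', zero_mul, zero_add]
    constructor
    · rintro ⟨h2, h3⟩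
      have h4 : (n : ZMod p) = -(C : ZMod p) / B := by
        rw [eq_div_iff hB']
        linear_combination h3
      rw [← h4, ZMod.val_cast_of_lt h2]
    · intro h2
      refine ⟨h2 ▸ ZMod.val_lt _, ?_⟩
      rw [h2, ZMod.natCast_zmod_val]
      field_simp
      ring
  rw [h1, card_singleton]

theorem ro_none (A B C : ℤ) (p : ℕ) (hA : (p : ℤ) ∣ A) (hB : (p : ℤ) ∣ B) (hC : ¬ (p : ℤ) ∣ C) :
    ro (QG A B C) 0 p = 0 := by
  rw [ro_eq, card_eq_zero, filter_eq_empty_iff]
  intro n _ h
  rw [QG_eval, add_zero] at h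
  apply hC
  have := dvd_sub h (dvd_add (hA.mul_right ((n : ℤ) ^ 2)) (hB.mul_right (n : ℤ)))
  rwa [add_sub_cancel_left] at this

theorem fa_two (h : Adm A B C) : fa A B C 2 = eps A B := by
  classical
  unfold fa eps
  have hro : ro (QG A B C) 0 2 = if (2 : ℤ) ∣ A + B then 0 else 1 := by
    rw [ro_eq]
    split_ifs with hd
    · rw [card_eq_zero, filter_eq_empty_iff]
      intro n hn hd2
      rw [mem_range] at hn
      rw [QG_eval, add_zero] at hd2
      apply h.two
      refine ⟨hd, ?_⟩
      interval_cases n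
      · have e : A * ((0 : ℕ) : ℤ) ^ 2 + B * ((0 : ℕ) : ℤ) + C = C := by push_cast; ring
        rw [e] at hd2
        exact_mod_cast hd2
      · have e : A * ((1 : ℕ) : ℤ) ^ 2 + B * ((1 : ℕ) : ℤ) + C = A + B + C := by push_cast; ring
        rw [e] at hd2
        have h3 : (2 : ℤ) ∣ A + B + C := by exact_mod_cast hd2
        omega
    · rcases Int.even_or_odd C with hC | hC
      · rw [card_eq_one]
        refine ⟨0, ?_⟩
        ext n
        rw [mem_filter, mem_range, mem_singleton, QG_eval, add_zero]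
        constructor
        · rintro ⟨hn, hd2⟩
          interval_cases n
          · rfl
          · exfalso
            have e : A * ((1 : ℕ) : ℤ) ^ 2 + B * ((1 : ℕ) : ℤ) + C = A + B + C := by push_cast; ring
            rw [e] at hd2
            have h3 : (2 : ℤ) ∣ A + B + C := by exact_mod_cast hd2
            obtain ⟨k, hk⟩ := hC
            omega
        · rintro rfl
          refine ⟨by norm_num, ?_⟩
          have e : A * ((0 : ℕ) : ℤ) ^ 2 + B * ((0 : ℕ) : ℤ) + C = C := by push_cast; ring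
          rw [e]
          exact_mod_cast hC.two_dvd
      · rw [card_eq_one]
        refine ⟨1, ?_⟩
        ext n
        rw [mem_filter, mem_range, mem_singleton, QG_eval, add_zero]
        constructor
        · rintro ⟨hn, hd2⟩
          interval_cases n
          · exfalso
            have e : A * ((0 : ℕ) : ℤ) ^ 2 + B * ((0 : ℕ) : ℤ) + C = C := by push_cast; ring
            rw [e] at hd2
            have h3 : (2 : ℤ) ∣ C := by exact_mod_cast hd2
            obtain ⟨k, hk⟩ := hC
            omega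
          · rfl
        · rintro rfl
          refine ⟨by norm_num, ?_⟩
          have e : A * ((1 : ℕ) : ℤ) ^ 2 + B * ((1 : ℕ) : ℤ) + C = A + B + C := by push_cast; ring
          rw [e]
          have h3 : (2 : ℤ) ∣ A + B + C := by
            obtain ⟨k, hk⟩ := hC
            omega
          exact_mod_cast h3
  rw [hro]
  split_ifs <;> norm_num

theorem RG_eq (h : Adm A B C) (z : ℕ) (hz : 2 ≤ z) (hz2 : ∀ p ∈ (Int.gcd A B).primeFactors, p ≤ z) :
    RG A B C (z + 1) = eps A B * partialC A B C z * gcdProd A B := by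
  classical
  unfold RG
  have hset : (range (z + 1)).filter Nat.Prime = insert 2 ((Icc 3 z).filter Nat.Prime) := by
    ext p
    rw [mem_filter, mem_range, mem_insert, mem_filter, mem_Icc]
    constructor
    · rintro ⟨h1, h2⟩
      rcases h2.two_le.eq_or_lt with h3 | h3
      · exact Or.inl h3.symm
      · exact Or.inr ⟨⟨h3, by omega⟩, h2⟩
    · rintro (rfl | ⟨⟨h1, h2⟩, h3⟩)
      · exact ⟨by omega, Nat.prime_two⟩
      · exact ⟨by omega, h3⟩
  rw [hset, prod_insert (by
    rw [mem_filter, mem_Icc]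
    omega), fa_two h, mul_assoc]
  congr 1
  rw [← prod_filter_mul_prod_filter_not ((Icc 3 z).filter Nat.Prime) (fun p : ℕ => ¬ (p : ℤ) ∣ A)]
  congr 1
  · unfold partialC
    rw [filter_filter]
    apply prod_congr rfl
    intro p hp
    rw [mem_filter, mem_Icc] at hp
    have hpZ : Prime (p : ℤ) := Nat.prime_iff_prime_int.1 hp.2.1
    have hp2 : p ≠ 2 := by omega
    rw [fa_eq A B C p hp.2.1 (by
      intro hd
      rcases hpZ.dvd_or_dvd hd with h1 | h1
      · have h2 : p ∣ 2 := by exact_mod_cast h1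
        exact hp2 ((Nat.prime_dvd_prime_iff_eq hp.2.1 Nat.prime_two).1 h2)
      · exact hp.2.2 h1)]
    unfold gf
    rw [if_neg hp2]
  · have hval : ∀ p ∈ ((Icc 3 z).filter Nat.Prime).filter (fun p : ℕ => ¬ ¬ (p : ℤ) ∣ A),
        fa A B C p = if (p : ℤ) ∣ B then (p : ℝ) / (p - 1) else 1 := by
      intro p hp
      rw [mem_filter, mem_filter, mem_Icc, not_not] at hp
      have hpp := hp.1.2
      have hp1 : (1 : ℝ) < p := by exact_mod_cast hpp.one_lt
      unfold fa
      split_ifs with hB
      · rw [ro_none A B C p hp.2 hB (fun hC => h.prim p hpp ⟨hp.2, hB, hC⟩)]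
        have h5 : (p : ℝ) - 1 ≠ 0 := by linarith
        have h6 : (p : ℝ) ≠ 0 := by linarith
        push_cast
        field_simp
        ring
      · rw [ro_lin A B C p hpp hp.2 hB]
        have h5 : (1 : ℝ) - 1 / p ≠ 0 := by
          have : (1 : ℝ) / p < 1 := by
            rw [div_lt_one (by linarith)]
            exact hp1
          linarith
        push_cast
        rw [div_self h5]
    rw [prod_congr rfl hval, ← prod_filter, filter_filter, filter_filter]
    unfold gcdProd
    apply prod_congr _ (fun _ _ => rfl)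
    ext p
    rw [mem_filter, mem_filter, mem_Icc, not_not, Nat.mem_primeFactors]
    constructor
    · rintro ⟨⟨h1, h2⟩, h3, h4, h5⟩
      refine ⟨⟨h3, ?_, ?_⟩, by omega⟩
      · have : (p : ℤ) ∣ (Int.gcd A B : ℤ) := Int.dvd_coe_gcd h4 h5
        exact_mod_cast this
      · intro h0
        exact h.ne (Int.gcd_eq_zero_iff.1 h0).1
    · rintro ⟨⟨h3, h4, h6⟩, h7⟩
      have h8 : (p : ℤ) ∣ (Int.gcd A B : ℤ) := by exact_mod_cast h4
      exact ⟨⟨by omega, hz2 p (Nat.mem_primeFactors.2 ⟨h3, h4, h6⟩)⟩,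
        h3, h8.trans (Int.gcd_dvd_left A B), h8.trans (Int.gcd_dvd_right A B)⟩

theorem eps_pos (a b : ℤ) : 0 < eps a b := by
  unfold eps
  split_ifs <;> norm_num

theorem gcdProd_pos (a b : ℤ) : 0 < gcdProd a b := by
  unfold gcdProd
  apply prod_pos
  intro p hp
  have h2 : (2 : ℝ) < p := by exact_mod_cast (mem_filter.1 hp).2
  exact div_pos (by linarith) (by linarith)

theorem partialC_conv (h : Adm A B C) : ∃ S : ℝ, 0 < S ∧ Tendsto (fun z => partialC A B C z) atTop (𝓝 S) ∧
    Tendsto (RG A B C) atTop (𝓝 (eps A B * S * gcdProd A B)) := by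
  obtain ⟨L, hL, hR⟩ := RG_conv h
  have he := eps_pos A B
  have hg := gcdProd_pos A B
  refine ⟨L / (eps A B * gcdProd A B), by positivity, ?_, ?_⟩
  · have h1 := (hR.comp (tendsto_add_atTop_nat 1)).div_const (eps A B * gcdProd A B)
    refine h1.congr' ?_
    filter_upwards [eventually_ge_atTop 2,
      eventually_ge_atTop ((Int.gcd A B).primeFactors.sup id)] with z hz hz2
    simp only [Function.comp]
    rw [RG_eq h z hz (fun p hp => le_trans (Finset.le_sup (f := id) hp) hz2)]
    field_simp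
  · have e : eps A B * (L / (eps A B * gcdProd A B)) * gcdProd A B = L := by field_simp
    rw [e]
    exact hR

end Pool.Agent.L7h2.QS
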