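import Pool.Agent.R498.MT.QGen

set_option autoImplicit false

/-! Local data of an admissible quadratic polynomial. -/

namespace Pool.Agent.L7h2.QS

open Finset Polynomial Filter
open Pool.Agent.W23.DC
open Pool.Agent.Y882.PX
open Pool.Agent.Y882.SI
open Pool.Agent.R498.MT (QG QG_eval mer_QG sq_QG rt_ro QG_ne_zero)

/-- `A x ^ 2 + B x + C` is a quadratic polynomial, irreducible and without fixed prime divisor -/
structure Adm (A B C : ℤ) : Prop where
  ne : A ≠ 0
  prim : ∀ p : ℕ, p.Prime → ¬ ((p : ℤ) ∣ A ∧ (p : ℤ) ∣ B ∧ (p : ℤ) ∣ C)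
  two : ¬ ((2 : ℤ) ∣ A + B ∧ (2 : ℤ) ∣ C)
  disc : ¬ IsSquare (B ^ 2 - 4 * A * C)

variable {A B C : ℤ}

theorem ro_QG_le (h : Adm A B C) (p : ℕ) (hp : p.Prime) : ro (QG A B C) 0 p ≤ 2 := by
  classical
  rw [ro_eq]
  by_contra hcon
  push Not at hcon
  obtain ⟨a, ha, b, hb, c, hc, hab, hac, hbc⟩ := Finset.two_lt_card.1 hcon
  rw [mem_filter, mem_range, QG_eval, add_zero] at ha hb hc
  have hpZ : Prime (p : ℤ) := Nat.prime_iff_prime_int.1 hp
  have key : ∀ x y : ℕ, x < p → y < p → x ≠ y → (p : ℤ) ∣ A * (x : ℤ) ^ 2 + B * x + C →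
      (p : ℤ) ∣ A * (y : ℤ) ^ 2 + B * y + C → (p : ℤ) ∣ A * ((x : ℤ) + y) + B := by
    intro x y hx hy hxy h1 h2
    have h3 := dvd_sub h1 h2
    have e : A * (x : ℤ) ^ 2 + B * x + C - (A * (y : ℤ) ^ 2 + B * y + C) =
      ((x : ℤ) - y) * (A * ((x : ℤ) + y) + B) := by ring
    rw [e] at h3
    rcases hpZ.dvd_or_dvd h3 with h4 | h4
    · exfalso
      apply hxy
      have h5 : (x : ℤ) - y = 0 := by
        apply Int.eq_zero_of_abs_lt_dvd h4
        rw [abs_lt]
        constructor <;> omega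
      omega
    · exact h4
  have k1 := key a b ha.1 hb.1 hab ha.2 hb.2
  have k2 := key a c ha.1 hc.1 hac ha.2 hc.2
  have k3 := dvd_sub k1 k2
  have e : A * ((a : ℤ) + b) + B - (A * ((a : ℤ) + c) + B) = ((b : ℤ) - c) * A := by ring
  rw [e] at k3
  have hA : (p : ℤ) ∣ A := by
    rcases hpZ.dvd_or_dvd k3 with h4 | h4
    · exfalso
      apply hbc
      have h5 : (b : ℤ) - c = 0 := by
        apply Int.eq_zero_of_abs_lt_dvd h4
        rw [abs_lt]
        constructor <;> omega
      omega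
    · exact h4
  have hB : (p : ℤ) ∣ B := by
    have := dvd_sub k1 (hA.mul_right ((a : ℤ) + b))
    rwa [add_sub_cancel_left] at this
  have hC : (p : ℤ) ∣ C := by
    have := dvd_sub ha.2 (dvd_add (hA.mul_right ((a : ℤ) ^ 2)) (hB.mul_right (a : ℤ)))
    rwa [add_sub_cancel_left] at this
  exact h.prim p hp ⟨hA, hB, hC⟩

theorem ro_QG_two (h : Adm A B C) : ro (QG A B C) 0 2 ≤ 1 := by
  classical
  rw [ro_eq]
  by_contra hcon
  push Not at hcon
  obtain ⟨a, ha, b, hb, hab⟩ := Finset.one_lt_card.1 hcon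
  rw [mem_filter, mem_range, QG_eval, add_zero] at ha hb
  apply h.two
  have key : (2 : ℤ) ∣ A * (0 : ℤ) ^ 2 + B * 0 + C ∧ (2 : ℤ) ∣ A * (1 : ℤ) ^ 2 + B * 1 + C := by
    obtain ⟨ha1, ha2⟩ := ha
    obtain ⟨hb1, hb2⟩ := hb
    interval_cases a <;> interval_cases b
    · exact absurd rfl hab
    · exact ⟨by exact_mod_cast ha2, by exact_mod_cast hb2⟩
    · exact ⟨by exact_mod_cast hb2, by exact_mod_cast ha2⟩
    · exact absurd rfl hab
  obtain ⟨k1, k2⟩ := key
  constructor
  · have := dvd_sub k2 k1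
    have e : A * (1 : ℤ) ^ 2 + B * 1 + C - (A * (0 : ℤ) ^ 2 + B * 0 + C) = A + B := by ring
    rwa [e] at this
  · have e : A * (0 : ℤ) ^ 2 + B * 0 + C = C := by ring
    rwa [e] at k1

theorem natDegree_QG (h : Adm A B C) : (QG A B C).natDegree = 2 := by
  unfold QG
  exact natDegree_quadratic h.ne

theorem prim_QG (h : Adm A B C) : (QG A B C).IsPrimitive := by
  intro r hr
  rw [C_dvd_iff_dvd_coeff] at hr
  have hA : r ∣ A := by
    have := hr 2
    simp only [QG, coeff_add, coeff_C_mul, coeff_X_pow, coeff_X, coeff_C] at this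
    simpa using this
  have hB : r ∣ B := by
    have := hr 1
    simp only [QG, coeff_add, coeff_C_mul, coeff_X_pow, coeff_X, coeff_C] at this
    simpa using this
  have hC : r ∣ C := by
    have := hr 0
    simp only [QG, coeff_add, coeff_C_mul, coeff_X_pow, coeff_X, coeff_C] at this
    simpa using this
  rw [Int.isUnit_iff_natAbs_eq]
  by_contra hne
  obtain ⟨p, hp, hpr⟩ := Nat.exists_prime_and_dvd hne
  have hpr' : (p : ℤ) ∣ r := Int.natCast_dvd.2 hpr
  exact h.prim p hp ⟨hpr'.trans hA, hpr'.trans hB, hpr'.trans hC⟩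

theorem irred_QG (h : Adm A B C) : Irreducible (QG A B C) := by
  rw [IsPrimitive.Int.irreducible_iff_irreducible_map_cast (prim_QG h)]
  have hA : (A : ℚ) ≠ 0 := by exact_mod_cast h.ne
  have hdeg : ((QG A B C).map (Int.castRingHom ℚ)).natDegree = 2 := by
    rw [natDegree_map_eq_of_injective (RingHom.injective_int _), natDegree_QG h]
  apply irreducible_of_degree_le_three_of_not_isRoot
  · rw [hdeg, mem_Icc]
    omega
  · intro x hx
    rw [IsRoot.def, eval_map, QG] at hx
    simp only [eval₂_add, eval₂_mul, eval₂_C, eval₂_X_pow, eval₂_X] at hx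
    simp only [eq_intCast] at hx
    apply h.disc
    rw [← Rat.isSquare_intCast_iff]
    refine ⟨2 * A * x + B, ?_⟩
    push_cast
    linear_combination (-4 * (A : ℚ)) * hx

/-- the densities of an admissible quadratic polynomial are regular -/
theorem mer_QG' (h : Adm A B C) (ε₁ υ η : ℝ) (hε : 0 < ε₁) (hυ : υ ≤ 1) (hη : 0 < η) :
    ∃ Y0 : ℕ, ∀ Y : ℕ, Y0 ≤ Y →
      Mer (pr Y ε₁ υ) (tt Y) (fun p => (ro (QG A B C) 0 p : ℝ) / p) ε₁ υ η := by
  obtain ⟨Y0, hY0⟩ := mer_QG A B C h.ne h.disc ε₁ υ η hε hυ hη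
  refine ⟨Y0, fun Y hY => ?_⟩
  have := hY0 Y hY
  simp_rw [rt_ro] at this
  exact this

/-- the local factor has the exact order -/
theorem lo_QG (h : Adm A B C) : ∃ c : ℝ, 0 < c ∧ ∀ Z : ℕ, 3 ≤ Z →
    c / Real.log Z ≤ lo (QG A B C) Z := by
  obtain ⟨D, hD0, hD⟩ := Pool.Agent.H474R2.GE.mertens_rho (QG A B C) (irred_QG h) (by
    rw [natDegree_QG h]
    omega)
  refine ⟨Real.exp (-(D + 24)), Real.exp_pos _, fun Z hZ => ?_⟩
  have hZr : (3 : ℝ) ≤ Z := by exact_mod_cast hZ
  have h1 := (abs_le.1 (hD Z hZr)).2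
  have hrho : ∀ p : ℕ, Pool.Agent.H474R2.PG.rho (QG A B C) p = ro (QG A B C) 0 p := by
    intro p
    rw [ro_eq]
    unfold Pool.Agent.H474R2.PG.rho
    simp
  have hlZ : 1 < Real.log Z := by
    rw [Real.lt_log_iff_exp_lt (by linarith)]
    linarith [Real.exp_one_lt_d9]
  have hPR : Pool.Agent.H474R2.PG.PR (Z : ℝ) = (Icc 1 Z).filter Nat.Prime := by
    unfold Pool.Agent.H474R2.PG.PR
    rw [Nat.floor_natCast]
  have h2 : ∀ p ∈ (Icc 1 Z).filter Nat.Prime,
      Real.exp (-((ro (QG A B C) 0 p : ℝ) / p) - 12 * (1 / (p : ℝ) ^ 2)) ≤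
        1 - (ro (QG A B C) 0 p : ℝ) / p := by
    intro p hp
    have hpp := (mem_filter.1 hp).2
    have hp0 : (0 : ℝ) < p := by exact_mod_cast hpp.pos
    have hr2 : (ro (QG A B C) 0 p : ℝ) ≤ 2 := by exact_mod_cast ro_QG_le h p hpp
    have hx0 : 0 ≤ (ro (QG A B C) 0 p : ℝ) / p := by positivity
    have hx : (ro (QG A B C) 0 p : ℝ) / p ≤ 2 / 3 := by
      rw [div_le_iff₀ hp0]
      by_cases h2 : p = 2
      · subst h2
        have : (ro (QG A B C) 0 2 : ℝ) ≤ 1 := by exact_mod_cast ro_QG_two h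
        norm_num
        linarith
      · have : 3 ≤ p := by
          have := hpp.two_le
          omega
        have : (3 : ℝ) ≤ p := by exact_mod_cast this
        linarith
    set x := (ro (QG A B C) 0 p : ℝ) / p with hxdef
    have hx2 : x ^ 2 ≤ 4 * (1 / (p : ℝ) ^ 2) := by
      rw [hxdef, div_pow]
      rw [mul_one_div]
      apply div_le_div_of_nonneg_right _ (by positivity)
      nlinarith [(Nat.cast_nonneg (ro (QG A B C) 0 p) : (0 : ℝ) ≤ _)]
    have h1x : 0 < 1 - x := by linarith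
    rw [← Real.le_log_iff_exp_le h1x]
    have h3 := Real.one_sub_inv_le_log_of_pos h1x
    refine le_trans ?_ h3
    have h4 : 1 - (1 - x)⁻¹ = - (x / (1 - x)) := by
      field_simp
      ring
    rw [h4]
    have h5 : x / (1 - x) ≤ x + 3 * x ^ 2 := by
      rw [div_le_iff₀ h1x]
      nlinarith [mul_nonneg (mul_nonneg hx0 hx0) (show 0 ≤ 2 - 3 * x by linarith)]
    linarith
  unfold lo
  calc Real.exp (-(D + 24)) / Real.log Z = Real.exp (-(Real.log (Real.log Z)) - D - 24) := by
        rw [show -(Real.log (Real.log Z)) - D - 24 = -(D + 24) - Real.log (Real.log Z) by ring,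
          Real.exp_sub, Real.exp_log (by linarith)]
    _ ≤ Real.exp (∑ p ∈ (Icc 1 Z).filter Nat.Prime,
        (-((ro (QG A B C) 0 p : ℝ) / p) - 12 * (1 / (p : ℝ) ^ 2))) := by
        apply Real.exp_le_exp.2
        rw [sum_sub_distrib, sum_neg_distrib, ← mul_sum]
        have h3 : ∑ p ∈ (Icc 1 Z).filter Nat.Prime, (1 / (p : ℝ) ^ 2) ≤ 2 := by
          calc ∑ p ∈ (Icc 1 Z).filter Nat.Prime, (1 / (p : ℝ) ^ 2) ≤
              ∑ p ∈ Icc 1 Z, (1 / (p : ℝ) ^ 2) :=
                sum_le_sum_of_subset_of_nonneg (filter_subset _ _) (fun _ _ _ => by positivity)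
            _ ≤ 2 := by
                have h4 : ∀ n : ℕ, 1 ≤ n → ∑ p ∈ Icc 1 n, (1 / (p : ℝ) ^ 2) ≤ 2 - 1 / (n : ℝ) := by
                  intro n hn
                  induction n, hn using Nat.le_induction with
                  | base => norm_num
                  | succ n hn ih =>
                    rw [sum_Icc_succ_top (by omega)]
                    have hn0 : (0 : ℝ) < n := by exact_mod_cast hn
                    have h5 : 1 / (((n + 1 : ℕ) : ℝ)) ^ 2 ≤ 1 / (n : ℝ) - 1 / ((n + 1 : ℕ) : ℝ) := by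
                      push_cast
                      rw [div_sub_div _ _ hn0.ne' (by positivity),
                        div_le_div_iff₀ (by positivity) (by positivity)]
                      nlinarith
                    linarith
                have h5 := h4 Z (by omega)
                have : (0 : ℝ) < 1 / Z := by positivity
                linarith
        have h4 : ∑ p ∈ (Icc 1 Z).filter Nat.Prime, (ro (QG A B C) 0 p : ℝ) / p ≤
            Real.log (Real.log Z) + D := by
          unfold Pool.Agent.H474R2.PG.Sg at h1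
          rw [hPR] at h1
          simp_rw [hrho] at h1
          linarith
        linarith
    _ = ∏ p ∈ (Icc 1 Z).filter Nat.Prime,
        Real.exp (-((ro (QG A B C) 0 p : ℝ) / p) - 12 * (1 / (p : ℝ) ^ 2)) := Real.exp_sum _ _
    _ ≤ _ := prod_le_prod (fun _ _ => (Real.exp_pos _).le) h2

end Pool.Agent.L7h2.QS
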